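import Mathlib
import Pool.Agent.X882.Ord.Main

set_option autoImplicit false

/-!
# Injective maps `A^G → A^G` preserving or reversing an order of the alphabet

`G` is an arbitrary group (in particular any hyperlinear group) and `A` is a finite partially
ordered set with a least and a greatest element. Every injective continuous shift-equivariant map
`τ : A^G → A^G` which preserves or reverses the product order is surjective. More precisely all
these maps are determined: there is a decomposition `A ≅ ∏_{s ∈ T} B_s` of `A` as a product of
partially ordered sets, with a finite subset `T` of `G`, such that `τ` is the product of the right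
translations by the elements `s` on the factors `B_s`, followed by an automorphism or an
antiautomorphism `α` of `A`, applied at each place.

Proof. The surjectivity in the order-preserving case is in the starting file
`Pool/Agent/H637R2/Gott/MonoMain.lean` (`mono_fixed`), which no result used, also the fact that,
if `τ` fixes the constants, for each coatom `b` there is `t_b` with `τ Y k ≤ b ↔ Y (k t_b) ≤ b`.
The structure is obtained from the images of the configurations which are the greatest element at
all places but one (files `Pool/Agent/X882/Ord`).
-/

namespace Pool.Agent.Results.MP_095f99_an.OrderedAlphabets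

/-- `τ` commutes with the shift: `τ (g x) = g (τ x)`, where `(g x)(h) = x (g⁻¹ h)` -/
def Equivariant {G A : Type} [Group G] (τ : (G → A) → (G → A)) : Prop :=
  ∀ (g : G) (x : G → A), τ (fun h => x (g⁻¹ * h)) = fun h => τ x (g⁻¹ * h)

/-- There are a finite subset `T` of `G`, partially ordered sets `B_s` with at least two elements, for
`s ∈ T`, an order isomorphism `e` of `A` with their product and an automorphism or
antiautomorphism `α` of `A` such that `τ x g` is the image under `α` of the element of `A` whose
component in `B_s` is the one of `x (g s)`, for all `s ∈ T`. -/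
def ProductOfTranslations {G A : Type} [Group G] [PartialOrder A] (τ : (G → A) → (G → A)) : Prop :=
  ∃ (α : Equiv.Perm A) (T : Finset G) (B : G → Type) (_ : ∀ s, PartialOrder (B s))
    (e : A ≃o (∀ s : T, B (s : G))),
    ((∀ a b, α a ≤ α b ↔ a ≤ b) ∨ (∀ a b, α a ≤ α b ↔ b ≤ a)) ∧
    (∀ s : T, Nontrivial (B (s : G))) ∧
    ∀ (x : G → A) (g : G), τ x g = α (e.symm fun s => e (x (g * (s : G))) s)

/-- Let `G` be a group and `A` a finite partially ordered set with least and greatest element. The
injective continuous maps `τ : A^G → A^G` commuting with the shift which are order-preserving or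
order-reversing (for the product order) are exactly the products of translations, and they are
surjective. -/
theorem result (G : Type) [Group G] (A : Type) [Fintype A] [PartialOrder A] [BoundedOrder A]
    [TopologicalSpace A] [DiscreteTopology A] (τ : (G → A) → (G → A)) :
    ((Continuous τ ∧ Equivariant τ ∧ Function.Injective τ ∧ (Monotone τ ∨ Antitone τ)) →
      Function.Surjective τ) ∧
    ((Continuous τ ∧ Equivariant τ ∧ Function.Injective τ ∧ (Monotone τ ∨ Antitone τ)) ↔
      ProductOfTranslations τ) := by
  have h2 : ProductOfTranslations τ → Continuous τ ∧ Equivariant τ ∧ Function.Injective τ ∧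
      (Monotone τ ∨ Antitone τ) ∧ Function.Surjective τ := by
    rintro ⟨α, T, B, hB, e, hα, -, hform⟩
    have hτ : τ = fun x g => α (Pool.Agent.X882.Ord.Sh (B := B) e x g) := by
      funext x g
      exact hform x g
    refine ⟨?_, ?_, ?_, ?_, ?_⟩
    · refine continuous_pi fun g => ?_
      have h3 : (fun x : G → A => τ x g) =
          (fun y : T → A => α (e.symm fun s => e (y s) s)) ∘ fun x (s : T) => x (g * (s : G)) := by
        funext x
        exact hform x g
      rw [h3]
      exact continuous_of_discreteTopology.comp
        (continuous_pi fun s => continuous_apply (g * (s : G)))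
    · intro g x
      funext h
      rw [hform, hform]
      simp only [mul_assoc]
    · intro x y hxy
      have h3 : Pool.Agent.X882.Ord.Sh (B := B) e x = Pool.Agent.X882.Ord.Sh (B := B) e y := by
        funext g
        have h4 := congrFun hxy g
        rw [hτ] at h4
        exact α.injective h4
      have h4 := congrArg (Pool.Agent.X882.Ord.Sh' (B := B) e) h3
      rwa [Pool.Agent.X882.Ord.Sh'_Sh, Pool.Agent.X882.Ord.Sh'_Sh] at h4
    · have hsh : ∀ x y : G → A, x ≤ y → ∀ g, (e.symm fun s : T => e (x (g * (s : G))) s) ≤
          e.symm fun s : T => e (y (g * (s : G))) s := by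
        intro x y hxy g
        apply e.symm.monotone
        intro s
        exact (e.monotone (hxy (g * (s : G)))) s
      rcases hα with hα | hα
      · left
        intro x y hxy g
        rw [hform, hform, hα]
        exact hsh x y hxy g
      · right
        intro x y hxy g
        rw [hform, hform, hα]
        exact hsh x y hxy g
    · intro y
      refine ⟨Pool.Agent.X882.Ord.Sh' (B := B) e fun g => α.symm (y g), ?_⟩
      rw [hτ]
      funext g
      show α (Pool.Agent.X882.Ord.Sh (B := B) e
        (Pool.Agent.X882.Ord.Sh' (B := B) e fun g => α.symm (y g)) g) = y g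
      rw [Pool.Agent.X882.Ord.Sh_Sh', Equiv.apply_symm_apply]
  have h1 : (Continuous τ ∧ Equivariant τ ∧ Function.Injective τ ∧ (Monotone τ ∨ Antitone τ)) →
      ProductOfTranslations τ := by
    rintro ⟨hc, he, hi, hm⟩
    obtain ⟨α, T, B, hB, e, hα, hnt, hform⟩ := Pool.Agent.X882.Ord.struct τ hc he hi hm
    exact ⟨α, T, B, hB, e, hα.imp And.right And.right, hnt, hform⟩
  exact ⟨fun h => (h2 (h1 h)).2.2.2.2, h1, fun h => ⟨(h2 h).1, (h2 h).2.1, (h2 h).2.2.1, (h2 h).2.2.2.1⟩⟩

end Pool.Agent.Results.MP_095f99_an.OrderedAlphabets
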